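import Pool.Agent.H993.DM.D

/-!
# Project DM: the theorem for real ground states
-/

namespace Pool.Agent.H993.DM

open Pool.Agent.N657.QR Pool.Agent.N657.QL
open Pool.Agent.N498.QL_SYM (nnw_nonneg nnw_trans)

/-- The theorem for real ground states, with absolute errors. -/
theorem real_abs (d : ℕ) (hd : 2 ≤ d) (ε : ℝ) (hε : 0 < ε) : ∃ U₀ : ℝ, 0 < U₀ ∧
    ∀ U : ℝ, 0 < U → U ≤ U₀ → ∃ L₀ : ℕ, ∀ (L : ℕ) [NeZero L], L₀ ≤ L → Even L →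
    (∀ (K : Matrix (Fin d → ZMod L) (Fin d → ZMod L) ℝ) (ν : (Fin d → ZMod L) → ℝ)
      (w : (Fin d → ZMod L) → (Fin d → ZMod L) → ℝ) (N : ℤ) (Φ : ((Fin d → ZMod L) → ℤ) → ℝ),
      K.PosDef → (U • (1 : Matrix (Fin d → ZMod L) (Fin d → ZMod L) ℝ) - K).PosSemidef →
      (∀ x y, nnw 1 x y ≤ w x y) → IsG K w ν N Φ →
      ∀ x y, 1 - cr x y Φ ≤ (pr d L 0 (y - x) + ε) * Real.sqrt U) ∧
    (∀ (ν : (Fin d → ZMod L) → ℝ) (N : ℤ) (Φ : ((Fin d → ZMod L) → ℤ) → ℝ),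
      IsG (U • (1 : Matrix (Fin d → ZMod L) (Fin d → ZMod L) ℝ)) (nnw 1) ν N Φ →
      ∀ z, (∑ x, |1 - cr x (x + z) Φ - Real.sqrt U * pr d L 0 z|) ≤
        3 * ε * Real.sqrt U * (Fintype.card (Fin d → ZMod L) : ℝ)) ∧
    (∀ (N : ℤ) (Φ : ((Fin d → ZMod L) → ℤ) → ℝ),
      IsG (U • (1 : Matrix (Fin d → ZMod L) (Fin d → ZMod L) ℝ)) (nnw 1) 0 N Φ →
      ∀ x y, |1 - cr x y Φ - Real.sqrt U * pr d L 0 (y - x)| ≤ ε * Real.sqrt U) := by
  obtain ⟨U₁, hU₁, h1⟩ := low_dens d hd ε hε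
  obtain ⟨U₂, hU₂, h2⟩ := up_neu d hd ε hε
  refine ⟨min U₁ U₂, lt_min hU₁ hU₂, ?_⟩
  intro U hU hUU
  obtain ⟨L₁, hL₁⟩ := h1 U hU (hUU.trans (min_le_left _ _))
  obtain ⟨L₂, hL₂⟩ := h2 U hU (hUU.trans (min_le_right _ _))
  refine ⟨max L₁ L₂, ?_⟩
  intro L _ hL hev
  have hlow := hL₁ L ((le_max_left _ _).trans hL) hev
  have hup := hL₂ L ((le_max_right _ _).trans hL) hev
  have hsU : 0 < Real.sqrt U := Real.sqrt_pos.2 hU
  have hV := card_pos' (d := d) (L := L)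
  have hPD := pd_one (d := d) (L := L) hU
  have hnn : ∀ x y : Fin d → ZMod L, 0 ≤ nnw 1 x y := fun x y => nnw_nonneg x y
  obtain ⟨Ψ, hΨ⟩ := ex (U • (1 : Matrix (Fin d → ZMod L) (Fin d → ZMod L) ℝ)) (nnw 1) 0 0 hPD hnn
  have gen : ∀ (K : Matrix (Fin d → ZMod L) (Fin d → ZMod L) ℝ) (ν : (Fin d → ZMod L) → ℝ)
      (w : (Fin d → ZMod L) → (Fin d → ZMod L) → ℝ) (N : ℤ) (Φ : ((Fin d → ZMod L) → ℤ) → ℝ),
      K.PosDef → (U • (1 : Matrix (Fin d → ZMod L) (Fin d → ZMod L) ℝ) - K).PosSemidef →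
      (∀ x y, nnw 1 x y ≤ w x y) → IsG K w ν N Φ →
      ∀ x y, 1 - cr x y Φ ≤ (pr d L 0 (y - x) + ε) * Real.sqrt U := by
    intro K ν w N Φ hK hKU hw hΦ x y
    have hc : cr x y Ψ ≤ cr x y Φ :=
      cmp K _ w (nnw 1) ν N Φ Ψ hK hKU hnn hw (conn_of hw) hΦ hΨ x y
    have h3 := hup Ψ hΨ (y - x)
    rw [mc_pt hU hΨ x y] at h3
    linarith
  have gen1 : ∀ (ν : (Fin d → ZMod L) → ℝ) (N : ℤ) (Φ : ((Fin d → ZMod L) → ℤ) → ℝ),
      IsG (U • (1 : Matrix (Fin d → ZMod L) (Fin d → ZMod L) ℝ)) (nnw 1) ν N Φ →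
      ∀ x y, 1 - cr x y Φ ≤ (pr d L 0 (y - x) + ε) * Real.sqrt U := fun ν N Φ hΦ =>
    gen _ ν (nnw 1) N Φ hPD (by rw [sub_self]; exact Matrix.PosSemidef.zero)
      (fun _ _ => le_rfl) hΦ
  refine ⟨gen, ?_, ?_⟩
  · intro ν N Φ hΦ z
    have h3 := hlow ν N Φ hΦ z
    unfold mc at h3
    rw [le_div_iff₀ hV] at h3
    have h4 : ∀ x, |1 - cr x (x + z) Φ - Real.sqrt U * pr d L 0 z| ≤
        ((pr d L 0 z + ε) * Real.sqrt U - (1 - cr x (x + z) Φ)) + ε * Real.sqrt U := by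
      intro x
      have h5 := gen1 ν N Φ hΦ x (x + z)
      rw [add_sub_cancel_left] at h5
      rw [abs_le]
      constructor <;> nlinarith
    refine (Finset.sum_le_sum fun x _ => h4 x).trans ?_
    rw [Finset.sum_add_distrib, Finset.sum_sub_distrib, Finset.sum_const, Finset.sum_const,
      Finset.card_univ, nsmul_eq_mul, nsmul_eq_mul]
    nlinarith
  · intro N Φ hΦ x y
    have h3 := hlow 0 N Φ hΦ (y - x)
    rw [mc_pt hU hΦ x y] at h3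
    have h4 := gen1 0 N Φ hΦ x y
    rw [abs_le]
    constructor <;> nlinarith

/-- The theorem for real ground states, with relative errors. -/
theorem real_rel (d : ℕ) (hd : 2 ≤ d) (ε : ℝ) (hε : 0 < ε) : ∃ U₀ : ℝ, 0 < U₀ ∧
    ∀ U : ℝ, 0 < U → U ≤ U₀ → ∃ L₀ : ℕ, ∀ (L : ℕ) [NeZero L], L₀ ≤ L → Even L →
    (∀ (K : Matrix (Fin d → ZMod L) (Fin d → ZMod L) ℝ) (ν : (Fin d → ZMod L) → ℝ)
      (w : (Fin d → ZMod L) → (Fin d → ZMod L) → ℝ) (N : ℤ) (Φ : ((Fin d → ZMod L) → ℤ) → ℝ),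
      K.PosDef → (U • (1 : Matrix (Fin d → ZMod L) (Fin d → ZMod L) ℝ) - K).PosSemidef →
      (∀ x y, nnw 1 x y ≤ w x y) → IsG K w ν N Φ →
      ∀ x y, 1 - cr x y Φ ≤ (1 + ε) * (Real.sqrt U * pr d L 0 (y - x))) ∧
    (∀ (ν : (Fin d → ZMod L) → ℝ) (N : ℤ) (Φ : ((Fin d → ZMod L) → ℤ) → ℝ),
      IsG (U • (1 : Matrix (Fin d → ZMod L) (Fin d → ZMod L) ℝ)) (nnw 1) ν N Φ →
      ∀ z, (∑ x, |1 - cr x (x + z) Φ - Real.sqrt U * pr d L 0 z|) ≤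
        ε * (Real.sqrt U * pr d L 0 z) * (Fintype.card (Fin d → ZMod L) : ℝ)) ∧
    (∀ (N : ℤ) (Φ : ((Fin d → ZMod L) → ℤ) → ℝ),
      IsG (U • (1 : Matrix (Fin d → ZMod L) (Fin d → ZMod L) ℝ)) (nnw 1) 0 N Φ →
      ∀ x y, |1 - cr x y Φ - Real.sqrt U * pr d L 0 (y - x)| ≤
        ε * (Real.sqrt U * pr d L 0 (y - x))) := by
  have hd0 : (0:ℝ) < d := by
    have : 0 < d := by omega
    exact_mod_cast this
  set κ : ℝ := 1 / Real.sqrt (8 * d) with hκ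
  have hκ0 : 0 < κ := by
    have : 0 < Real.sqrt (8 * d) := Real.sqrt_pos.2 (by positivity)
    positivity
  obtain ⟨U₀, hU₀, h⟩ := real_abs d hd (ε * κ / 3) (by positivity)
  refine ⟨U₀, hU₀, ?_⟩
  intro U hU hUU
  obtain ⟨L₀, hL₀⟩ := h U hU hUU
  refine ⟨L₀, ?_⟩
  intro L _ hL hev
  obtain ⟨h1, h2, h3⟩ := hL₀ L hL hev
  have hsU : 0 < Real.sqrt U := Real.sqrt_pos.2 hU
  have hV := card_pos' (d := d) (L := L)
  have hcr0 : ∀ (K : Matrix (Fin d → ZMod L) (Fin d → ZMod L) ℝ) (ν : (Fin d → ZMod L) → ℝ)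
      (w : (Fin d → ZMod L) → (Fin d → ZMod L) → ℝ) (N : ℤ) (Φ : ((Fin d → ZMod L) → ℤ) → ℝ),
      IsG K w ν N Φ → ∀ x, cr x x Φ = 1 := by
    intro K ν w N Φ hΦ x
    rw [bas.crself, hΦ.2.2.1]
  refine ⟨?_, ?_, ?_⟩
  · intro K ν w N Φ hK hKU hw hΦ x y
    by_cases hxy : y - x = 0
    · rw [hxy, pr_zero]
      have : y = x := sub_eq_zero.1 hxy
      rw [this, hcr0 K ν w N Φ hΦ x]
      simp
    · have h4 := h1 K ν w N Φ hK hKU hw hΦ x y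
      have h5 := mul_le_mul_of_nonneg_left (pr_low hd hxy) hsU.le
      rw [← hκ] at h5
      have h6 : ε * κ / 3 * Real.sqrt U ≤ ε * (Real.sqrt U * κ) := by
        have : 0 ≤ ε * (Real.sqrt U * κ) := by positivity
        nlinarith
      have h7 := mul_le_mul_of_nonneg_left h5 hε.le
      nlinarith
  · intro ν N Φ hΦ z
    by_cases hz : z = 0
    · subst hz
      rw [pr_zero]
      simp only [add_zero, mul_zero, sub_zero, zero_mul]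
      refine le_of_eq (Finset.sum_eq_zero fun x _ => ?_)
      rw [hcr0 _ ν _ N Φ hΦ x]
      simp
    · have h4 := h2 ν N Φ hΦ z
      have h5 := mul_le_mul_of_nonneg_left (pr_low hd hz) hsU.le
      rw [← hκ] at h5
      refine h4.trans ?_
      refine mul_le_mul_of_nonneg_right ?_ hV.le
      have h7 := mul_le_mul_of_nonneg_left h5 hε.le
      calc 3 * (ε * κ / 3) * Real.sqrt U = ε * (Real.sqrt U * κ) := by ring
        _ ≤ _ := h7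
  · intro N Φ hΦ x y
    by_cases hxy : y - x = 0
    · rw [hxy, pr_zero]
      have : y = x := sub_eq_zero.1 hxy
      rw [this, hcr0 _ 0 _ N Φ hΦ x]
      simp
    · have h4 := h3 N Φ hΦ x y
      have h5 := mul_le_mul_of_nonneg_left (pr_low hd hxy) hsU.le
      rw [← hκ] at h5
      have h6 : ε * κ / 3 * Real.sqrt U ≤ ε * (Real.sqrt U * κ) := by
        have : 0 ≤ ε * (Real.sqrt U * κ) := by positivity
        nlinarith
      have h7 := mul_le_mul_of_nonneg_left h5 hε.le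
      exact h4.trans (h6.trans h7)

end Pool.Agent.H993.DM
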