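import Pool.Graph.R_pool_sql_team_seeded_63374d34.N657.QL.All
import Pool.Agent.H993.TR.Tra

/-!
# Project DM: symmetries and one mode, for general translation invariant hopping
-/

namespace Pool.Agent.H993.DM

open Pool.Agent.N657.QR Pool.Agent.N657.QL Pool.Agent.N498.QL_SYM

section

variable {V : Type} [Fintype V] [DecidableEq V]

/-- A symmetry of the energy maps ground states to ground states. -/
theorem isG_comp' {K : Matrix V V ℝ} {w : V → V → ℝ} {ν : V → ℝ} {N : ℤ} {Ψ : (V → ℤ) → ℝ}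
    (h : IsG K w ν N Ψ) (e : (V → ℤ) ≃ (V → ℤ))
    (hsq : ∀ n, Pool.Agent.N657.QR.sq (e n) = Pool.Agent.N657.QR.sq n)
    (hpot : ∀ n, pot K ν (e n) = pot K ν n) (htot : ∀ n, tot (e n) = N → tot n = N)
    (hcr : (∑ x, ∑ y, w x y * cr x y (fun n => Ψ (e n))) = ∑ x, ∑ y, w x y * cr x y Ψ) :
    IsG K w ν N (fun n => Ψ (e n)) := by
  obtain ⟨⟨h1, h2⟩, h3, h4, h5⟩ := h
  refine ⟨⟨?_, ?_⟩, ?_, ?_, ?_⟩
  · exact (e.summable_iff (f := fun n => Ψ n ^ 2)).mpr h1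
  · have := (e.summable_iff (f := fun n => Pool.Agent.N657.QR.sq n * Ψ n ^ 2)).mpr h2
    refine this.congr fun n => ?_
    rw [Function.comp_apply, hsq]
  · intro n hn
    exact htot n (h3 _ hn)
  · rw [← h4]
    exact e.tsum_eq (fun n => Ψ n ^ 2)
  · rw [← h5]
    unfold FF
    rw [hcr]
    congr 1
    unfold po
    rw [← e.tsum_eq (fun n => pot K ν n * Ψ n ^ 2)]
    exact tsum_congr fun n => by rw [hpot]

end

section

variable {d L : ℕ} [NeZero L]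

theorem sumcr_tr' {w : (Fin d → ZMod L) → (Fin d → ZMod L) → ℝ}
    (hwt : ∀ x y a, w (x + a) (y + a) = w x y) (a : Fin d → ZMod L)
    (Ψ : ((Fin d → ZMod L) → ℤ) → ℝ) :
    (∑ x, ∑ y, w x y * cr x y (fun n => Ψ (tr a n))) = ∑ x, ∑ y, w x y * cr x y Ψ := by
  rw [← sum2_tr a (fun x y => w x y * cr x y (fun n => Ψ (tr a n)))]
  refine Finset.sum_congr rfl fun x _ => Finset.sum_congr rfl fun y _ => ?_
  rw [hwt, cr_tr, add_sub_cancel_right, add_sub_cancel_right]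

theorem conn_of {w : (Fin d → ZMod L) → (Fin d → ZMod L) → ℝ}
    (hw : ∀ x y, nnw 1 x y ≤ w x y) : Conn w :=
  con.1 _ (con.2.1 d L _ fun x i => lt_of_lt_of_le (nnw_pos x i) (hw _ _))

theorem pd_one {U : ℝ} (hU : 0 < U) :
    (U • (1 : Matrix (Fin d → ZMod L) (Fin d → ZMod L) ℝ)).PosDef := Matrix.PosDef.one.smul hU

/-- Ground states are translation invariant up to a sign. -/
theorem symT {U : ℝ} {w : (Fin d → ZMod L) → (Fin d → ZMod L) → ℝ} (hU : 0 < U)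
    (hw : ∀ x y, nnw 1 x y ≤ w x y) (hwt : ∀ x y a, w (x + a) (y + a) = w x y) {N : ℤ}
    {Ψ : ((Fin d → ZMod L) → ℤ) → ℝ}
    (hG : IsG (U • (1 : Matrix (Fin d → ZMod L) (Fin d → ZMod L) ℝ)) w 0 N Ψ)
    (a : Fin d → ZMod L) (n n' : (Fin d → ZMod L) → ℤ) :
    Ψ (fun x => n (x + a)) * Ψ (fun x => n' (x + a)) = Ψ n * Ψ n' := by
  have hw0 : ∀ x y, 0 ≤ w x y := fun x y => (nnw_nonneg x y).trans (hw x y)
  have h1 := isG_comp' hG (tr a) (fun n => sq_tr a n) (fun n => pot_tr U a n)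
      (fun n hn => (tot_tr a n).symm.trans hn) (sumcr_tr' hwt a Ψ)
  exact prod_eq (un _ _ _ _ _ _ (pd_one hU) hw0 (conn_of hw) hG h1).2 n n'

/-- The neutral ground state is symmetric. -/
theorem symN {U : ℝ} {w : (Fin d → ZMod L) → (Fin d → ZMod L) → ℝ} (hU : 0 < U)
    (hw : ∀ x y, nnw 1 x y ≤ w x y)
    {Ψ : ((Fin d → ZMod L) → ℤ) → ℝ}
    (hG : IsG (U • (1 : Matrix (Fin d → ZMod L) (Fin d → ZMod L) ℝ)) w 0 0 Ψ)
    (n n' : (Fin d → ZMod L) → ℤ) : Ψ (-n) * Ψ (-n') = Ψ n * Ψ n' := by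
  have hw0 : ∀ x y, 0 ≤ w x y := fun x y => (nnw_nonneg x y).trans (hw x y)
  have h1 := isG_comp' hG (Equiv.neg _) (fun n => sq_neg' n) (fun n => pot_neg _ n)
      (fun n hn => by
        have h2 : -tot n = 0 := (tot_neg' n).symm.trans hn
        omega)
      (Finset.sum_congr rfl fun x _ => Finset.sum_congr rfl fun y _ => by
        congr 1
        exact cr_neg bas x y Ψ)
  exact prod_eq (un _ _ _ _ _ _ (pd_one hU) hw0 (conn_of hw) hG h1).2 n n'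

/-- Fluctuations of the number of particles. -/
theorem numb {U Λ : ℝ} {w : (Fin d → ZMod L) → (Fin d → ZMod L) → ℝ} (hU : 0 < U) (hΛ : 0 < Λ)
    (hw : ∀ x y, nnw 1 x y ≤ w x y)
    {Ψ : ((Fin d → ZMod L) → ℤ) → ℝ}
    (hΨ : IsG (U • (1 : Matrix (Fin d → ZMod L) (Fin d → ZMod L) ℝ)) w 0 0 Ψ)
    (g : (Fin d → ZMod L) → ℝ)
    (hg : ∑ x, ∑ y, w x y * (g x - g y) ^ 2 ≤ Λ * ∑ x, g x ^ 2) :
    ∑' n, (∑ x, g x * (n x : ℝ)) ^ 2 * Ψ n ^ 2 ≤ (∑ x, g x ^ 2) * Real.sqrt (Λ / (8 * U)) := by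
  have hw0 : ∀ x y, 0 ≤ w x y := fun x y => (nnw_nonneg x y).trans (hw x y)
  obtain ⟨heig, h4⟩ := eig _ w 0 0 Ψ (pd_one hU) hw0 hΨ
  have hG : Pool.Agent.N690.QLM.Gs U w (en (U • (1 : Matrix (Fin d → ZMod L) (Fin d → ZMod L) ℝ))
      w 0 0) Ψ := ⟨hΨ.1.1, h4, heig⟩
  have hsym : ∀ n, Ψ (-n) ^ 2 = Ψ n ^ 2 := by
    intro n
    rw [pow_two, pow_two]
    exact symN hU hw hΨ n n
  have hσ : 0 ≤ ∑ x, g x ^ 2 := Finset.sum_nonneg fun _ _ => sq_nonneg _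
  have hm0 : 0 ≤ ∑' n, Pool.Agent.N690.QLM.G g n ^ 2 * Ψ n ^ 2 :=
    tsum_nonneg fun n => by positivity
  have hm1 : (∑ x, ∑ y, w x y * ((g x - g y) ^ 2 * cr x y Ψ)) / 2 ≤
      Λ * (∑ x, g x ^ 2) / 2 := by
    have h1 : ∑ x, ∑ y, w x y * ((g x - g y) ^ 2 * cr x y Ψ) ≤
        ∑ x, ∑ y, w x y * (g x - g y) ^ 2 := by
      refine Finset.sum_le_sum fun x _ => Finset.sum_le_sum fun y _ => ?_
      have h2 := bas.crle x y Ψ hΨ.1.1
      rw [hΨ.2.2.1] at h2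
      have h3 := (le_abs_self _).trans h2
      refine mul_le_mul_of_nonneg_left ?_ (hw0 x y)
      exact mul_le_of_le_one_right (sq_nonneg _) h3
    linarith
  exact Pool.Agent.N690.QLM.fin _ _ (∑ x, g x ^ 2) U Λ hU hm0 hm1 hσ hΛ fun κ t =>
    Pool.Agent.N690.QLM.quad lb min_ hU hw0 hG hΨ.2.1 hΨ.2.2.1 hsym g κ t

open Finset Pool.Agent.N252.QLU in
/-- The uncertainty relation between phase and number of particles. -/
theorem unc {U Λ : ℝ} {w : (Fin d → ZMod L) → (Fin d → ZMod L) → ℝ} (hU : 0 < U) (hΛ : 0 < Λ)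
    (hw : ∀ x y, nnw 1 x y ≤ w x y) (hwt : ∀ x y a, w (x + a) (y + a) = w x y)
    {Ψ : ((Fin d → ZMod L) → ℤ) → ℝ}
    (hG : IsG (U • (1 : Matrix (Fin d → ZMod L) (Fin d → ZMod L) ℝ)) w 0 0 Ψ)
    (g : (Fin d → ZMod L) → ℝ)
    (hg : ∑ x, ∑ y, w x y * (g x - g y) ^ 2 ≤ Λ * ∑ x, g x ^ 2) :
    ((∑ x, ∑ y, cr x y Ψ) / (Fintype.card (Fin d → ZMod L) : ℝ) ^ 2 * (∑ x, g x ^ 2) -
      (∑ x, ∑ y, g x * g y * cr x y Ψ) / (Fintype.card (Fin d → ZMod L) : ℝ)) ^ 2 ≤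
      (∑ x, g x ^ 2) * Real.sqrt (2 * Λ / U) * ∑ x, ∑ y, g x * g y * cr x y Ψ := by
  have hFE : FE Ψ := hG.1
  have hm0 := numb hU hΛ hw hG g hg
  have hT : ∀ (a : Fin d → ZMod L) n n',
      Ψ (fun x => n (x + a)) * Ψ (fun x => n' (x + a)) = Ψ n * Ψ n' :=
    fun a n n' => symT hU hw hwt hG a n n'
  set V : ℝ := (Fintype.card (Fin d → ZMod L) : ℝ) with hV
  have hV0 : 0 < V := by
    rw [hV]
    exact_mod_cast Fintype.card_pos
  set σ : ℝ := ∑ x, g x ^ 2 with hσ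
  set Ng : ℝ := ∑ x, ∑ y, g x * g y * cr x y Ψ with hNg
  set S0 : ℝ := ∑ x, cr x 0 Ψ with hS0
  have hrow : ∀ y, ∑ x, cr x y Ψ = S0 := by
    intro y
    rw [hS0]
    have h1 : ∀ x, cr x y Ψ = cr (x - y) 0 Ψ := by
      intro x
      rw [cr_trans Ψ hT x y y, sub_self]
    rw [sum_congr rfl fun x _ => h1 x]
    exact Fintype.sum_equiv (Equiv.subRight y) _ _ (fun x => rfl)
  have htot : ∑ x, ∑ y, cr x y Ψ = V * S0 := by
    rw [sum_comm, sum_congr rfl fun y _ => hrow y]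
    simp [hV]
  have hcomm := comm g Ψ hFE
  have e1 : ∑ x, ∑ y, g y * (g y - g x) * cr x y Ψ = σ * S0 - Ng := by
    have h1 : ∑ x, ∑ y, g y * (g y - g x) * cr x y Ψ =
        (∑ x, ∑ y, g y ^ 2 * cr x y Ψ) - ∑ x, ∑ y, g x * g y * cr x y Ψ := by
      rw [← sum_sub_distrib]
      refine sum_congr rfl fun x _ => ?_
      rw [← sum_sub_distrib]
      refine sum_congr rfl fun y _ => ?_
      ring
    rw [h1, sum_comm]
    congr 1
    rw [hσ, sum_mul]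
    refine sum_congr rfl fun y _ => ?_
    rw [← mul_sum, hrow]
  rw [e1, ← hV] at hcomm
  obtain ⟨hB2, hBn⟩ := Bf_norm bas g Ψ hFE.1
  rw [← hNg] at hBn
  have hGL := GG_L2 g Ψ hFE
  have hcs := cs hGL hB2
  have hNg0 : 0 ≤ Ng := le_trans (tsum_nonneg fun n => sq_nonneg _) hBn
  have hσ0 : 0 ≤ σ := sum_nonneg fun x _ => sq_nonneg _
  have e2 : ∑' n, (GG g n * Ψ n) ^ 2 ≤ σ * Real.sqrt (Λ / (8 * U)) := by
    refine le_trans (le_of_eq ?_) hm0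
    refine tsum_congr fun n => ?_
    unfold GG
    ring
  have e3 : (∑' n, (GG g n * Ψ n) * Bf g Ψ n) ^ 2 ≤ σ * Real.sqrt (Λ / (8 * U)) * Ng := by
    refine le_trans hcs ?_
    exact mul_le_mul e2 hBn (tsum_nonneg fun n => sq_nonneg _)
      (mul_nonneg hσ0 (Real.sqrt_nonneg _))
  rw [hcomm] at e3
  have e4 : Real.sqrt (2 * Λ / U) = 4 * Real.sqrt (Λ / (8 * U)) := by
    have : 2 * Λ / U = 4 ^ 2 * (Λ / (8 * U)) := by
      field_simp
      norm_num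
    rw [this, Real.sqrt_mul (by norm_num), Real.sqrt_sq (by norm_num)]
  rw [htot, e4]
  have e5 : V * S0 / V ^ 2 * σ - Ng / V = 2 * (1 / (2 * V) * (σ * S0 - Ng)) := by
    field_simp
  rw [e5, mul_pow]
  nlinarith

end

end Pool.Agent.H993.DM
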