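import Pool.Agent.H993.DM.A

/-!
# Project DM: the modes
-/

namespace Pool.Agent.H993.DM

open Pool.Agent.N657.QR Pool.Agent.N657.QL
open Pool.Agent.H993.TR (oc oc_nonneg oc_le oc_zero planch_oc)
open Pool.Agent.N157 (QR_FOU.cc QR_FOU.ss QR_FOU.BB)
open Pool.Agent.N498.QL_SYM (nnw_nonneg nnw_trans)

section

variable {d L : ℕ} [NeZero L]

/-- Nearest neighbour hopping plus the hopping `s` by the displacement `z`. -/
noncomputable def wz (s : ℝ) (z x y : Fin d → ZMod L) : ℝ :=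
  nnw 1 x y + if y = x + z then s else 0

theorem wz_ge {s : ℝ} (hs : 0 ≤ s) (z x y : Fin d → ZMod L) : nnw 1 x y ≤ wz s z x y := by
  unfold wz
  have : 0 ≤ (if y = x + z then s else 0) := by split_ifs <;> simp [hs]
  linarith

theorem wz_nonneg {s : ℝ} (hs : 0 ≤ s) (z x y : Fin d → ZMod L) : 0 ≤ wz s z x y :=
  (nnw_nonneg x y).trans (wz_ge hs z x y)

theorem wz_trans (s : ℝ) (z x y a : Fin d → ZMod L) : wz s z (x + a) (y + a) = wz s z x y := by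
  unfold wz
  rw [nnw_trans]
  have : y + a = x + a + z ↔ y = x + z := by
    rw [add_right_comm, add_left_inj]
  simp only [this]

theorem wz_sum_mul (s : ℝ) (z x : Fin d → ZMod L) (h : (Fin d → ZMod L) → ℝ) :
    ∑ y, wz s z x y * h y = ∑ i : Fin d, h (x + ee i) + s * h (x + z) := by
  unfold wz
  simp only [add_mul, Finset.sum_add_distrib]
  rw [Pool.Agent.N690.QLM.nnw_sum]
  congr 1
  rw [Finset.sum_eq_single (x + z)]
  · rw [if_pos rfl]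
  · intro y _ hy
    rw [if_neg hy, zero_mul]
  · intro h
    exact absurd (Finset.mem_univ _) h

theorem wz_sum {s l : ℝ} (hs : 0 ≤ s) (z : Fin d → ZMod L) (g : (Fin d → ZMod L) → ℝ)
    (hl : ∀ x, lap g x = l * g x) :
    ∑ x, ∑ y, wz s z x y * (g x - g y) ^ 2 ≤ (l + 4 * s) * ∑ x, g x ^ 2 := by
  have h1 : ∀ x, ∑ y, wz s z x y * (g x - g y) ^ 2 =
      ∑ i : Fin d, (g x - g (x + ee i)) ^ 2 + s * (g x - g (x + z)) ^ 2 :=
    fun x => wz_sum_mul s z x fun y => (g x - g y) ^ 2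
  simp only [h1, Finset.sum_add_distrib, ← Finset.mul_sum]
  rw [Pool.Agent.N690.QLM.grad]
  have h3 : ∑ x, g x * lap g x = l * ∑ x, g x ^ 2 := by
    rw [Finset.mul_sum]
    refine Finset.sum_congr rfl fun x _ => ?_
    rw [hl]
    ring
  have h4 : ∑ x, (g x - g (x + z)) ^ 2 ≤ 4 * ∑ x, g x ^ 2 := by
    have e1 : ∑ x, g (x + z) ^ 2 = ∑ x, g x ^ 2 :=
      Equiv.sum_comp (Equiv.addRight z) (fun x => g x ^ 2)
    calc ∑ x, (g x - g (x + z)) ^ 2 ≤ ∑ x, (2 * g x ^ 2 + 2 * g (x + z) ^ 2) :=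
          Finset.sum_le_sum fun x _ => by nlinarith [sq_nonneg (g x + g (x + z))]
      _ = 4 * ∑ x, g x ^ 2 := by
          rw [Finset.sum_add_distrib, ← Finset.mul_sum, ← Finset.mul_sum, e1]
          ring
  rw [h3]
  nlinarith

/-- The kernel of the correlations. -/
noncomputable def KR (Ψ : ((Fin d → ZMod L) → ℤ) → ℝ) (x y : Fin d → ZMod L) : ℝ := cr x y Ψ

/-- The occupation of the mode `k` (times the volume). -/
noncomputable def nk (Ψ : ((Fin d → ZMod L) → ℤ) → ℝ) (k : Fin d → ZMod L) : ℝ :=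
  QR_FOU.BB (KR Ψ) (QR_FOU.cc k) + QR_FOU.BB (KR Ψ) (QR_FOU.ss k)

/-- The condensate fraction. -/
noncomputable def cf (Ψ : ((Fin d → ZMod L) → ℤ) → ℝ) : ℝ :=
  (∑ x, ∑ y, cr x y Ψ) / (Fintype.card (Fin d → ZMod L) : ℝ) ^ 2

theorem cosum {Ψ : ((Fin d → ZMod L) → ℤ) → ℝ} (hn : nr Ψ = 1) (z : Fin d → ZMod L) :
    ∑ k ∈ (Finset.univ : Finset (Fin d → ZMod L)).erase 0, nk Ψ k * oc k z =
      (Fintype.card (Fin d → ZMod L) : ℝ) * ∑ x, (1 - cr x (x + z) Ψ) := by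
  have h := planch_oc (KR Ψ) z
  have e1 : ∀ x, KR Ψ x x - (KR Ψ (x + z) x + KR Ψ x (x + z)) / 2 = 1 - cr x (x + z) Ψ := by
    intro x
    unfold KR
    rw [bas.crself, hn, bas.crcomm (x + z) x]
    ring
  simp only [e1] at h
  rw [← h, ← Finset.add_sum_erase _ _ (Finset.mem_univ (0 : Fin d → ZMod L)), oc_zero, mul_zero,
    zero_add]
  rfl

theorem nsum {Ψ : ((Fin d → ZMod L) → ℤ) → ℝ} (hn : nr Ψ = 1) :
    ∑ k ∈ (Finset.univ : Finset (Fin d → ZMod L)).erase 0, nk Ψ k =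
      (Fintype.card (Fin d → ZMod L) : ℝ) ^ 2 * (1 - cf Ψ) := by
  have h := Pool.Agent.N157.QR_FOU.planch (KR Ψ)
  have e1 : ∀ x, KR Ψ x x = 1 := by
    intro x
    unfold KR
    rw [bas.crself, hn]
  simp only [e1, Finset.sum_const, Finset.card_univ, nsmul_eq_mul, mul_one] at h
  rw [← Finset.add_sum_erase _ _ (Finset.mem_univ (0 : Fin d → ZMod L))] at h
  have hV : (0 : ℝ) < (Fintype.card (Fin d → ZMod L) : ℝ) := by exact_mod_cast Fintype.card_pos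
  have h0 : ∀ x : Fin d → ZMod L, QR_FOU.cc 0 x = 1 ∧ QR_FOU.ss 0 x = 0 := by
    intro x
    have : Pool.Agent.N157.QR_FOU.dot (0 : Fin d → ZMod L) x = 0 := by
      simp [Pool.Agent.N157.QR_FOU.dot]
    unfold QR_FOU.cc QR_FOU.ss
    rw [this, Pool.Agent.N157.QR_FOU.ps_zero]
    simp
  have e2 : QR_FOU.BB (KR Ψ) (QR_FOU.cc 0) + QR_FOU.BB (KR Ψ) (QR_FOU.ss 0) =
      ∑ x, ∑ y, cr x y Ψ := by
    unfold QR_FOU.BB KR
    simp only [fun x => (h0 x).1, fun x => (h0 x).2]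
    simp
  rw [e2] at h
  have e3 : ∑ x, ∑ y, cr x y Ψ = (Fintype.card (Fin d → ZMod L) : ℝ) ^ 2 * cf Ψ := by
    unfold cf
    field_simp
  rw [e3] at h
  have e4 : ∑ k ∈ (Finset.univ : Finset (Fin d → ZMod L)).erase 0, nk Ψ k =
      ∑ x ∈ Finset.univ.erase 0, (QR_FOU.BB (KR Ψ) (QR_FOU.cc x) +
        QR_FOU.BB (KR Ψ) (QR_FOU.ss x)) := rfl
  rw [e4]
  linarith

theorem cf_le {Ψ : ((Fin d → ZMod L) → ℤ) → ℝ} (hn : nr Ψ = 1)
    (hs : Summable fun n => Ψ n ^ 2) : cf Ψ ≤ 1 ∧ ∀ x y, |cr x y Ψ| ≤ 1 := by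
  have hcr : ∀ x y, |cr x y Ψ| ≤ 1 := by
    intro x y
    have h1 := bas.crle x y Ψ hs
    rwa [hn] at h1
  refine ⟨?_, hcr⟩
  have hV : (0 : ℝ) < (Fintype.card (Fin d → ZMod L) : ℝ) := by exact_mod_cast Fintype.card_pos
  unfold cf
  rw [div_le_one (by positivity)]
  calc (∑ x, ∑ y, cr x y Ψ) ≤ ∑ x : Fin d → ZMod L, ∑ y : Fin d → ZMod L, (1 : ℝ) :=
        Finset.sum_le_sum fun x _ => Finset.sum_le_sum fun y _ => (abs_le.1 (hcr x y)).2
    _ = (Fintype.card (Fin d → ZMod L) : ℝ) ^ 2 := by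
        simp only [Finset.sum_const, Finset.card_univ, nsmul_eq_mul, mul_one]
        ring

/-- One mode. -/
theorem mode {U s : ℝ} (hd : 2 ≤ d) (hU : 0 < U) (hs : 0 ≤ s) (z : Fin d → ZMod L)
    {Ψ : ((Fin d → ZMod L) → ℤ) → ℝ}
    (hG : IsG (U • (1 : Matrix (Fin d → ZMod L) (Fin d → ZMod L) ℝ)) (wz s z) 0 0 Ψ)
    {k : Fin d → ZMod L} (hk0 : k ≠ 0) :
    cf Ψ ^ 2 * (Fintype.card (Fin d → ZMod L) : ℝ) *
        (Real.sqrt (U / 2) * (1 / Real.sqrt (lam k + 4 * s))) ≤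
      nk Ψ k * (1 + Real.sqrt U / L) ∧ 0 ≤ nk Ψ k := by
  have hL1 : (1 : ℝ) ≤ L := by
    exact_mod_cast Nat.one_le_iff_ne_zero.2 (NeZero.ne L)
  have hL0 : (0 : ℝ) < L := by linarith
  set V : ℝ := (Fintype.card (Fin d → ZMod L) : ℝ) with hVdef
  have hVL : (L : ℝ) ^ 2 ≤ V := Pool.Agent.N987.QLLOWG.card_ge hd
  have hV : 0 < V := lt_of_lt_of_le (by positivity) hVL
  have hlow := pla.low d L k hk0
  have hl : 0 < lam k := lt_of_lt_of_le (by positivity) hlow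
  have hl' : 0 < lam k + 4 * s := by linarith
  set a : ℝ := Real.sqrt (U / 2) * (1 / Real.sqrt (lam k + 4 * s)) with ha
  have hs1 : 0 < Real.sqrt (lam k + 4 * s) := Real.sqrt_pos.2 hl'
  have hs2 : 0 < Real.sqrt (U / 2) := Real.sqrt_pos.2 (by positivity)
  have ha0 : 0 < a := by positivity
  have hainv : Real.sqrt (2 * (lam k + 4 * s) / U) = 1 / a := by
    have h1 : 2 * (lam k + 4 * s) / U = (lam k + 4 * s) / (U / 2) := by field_simp
    rw [h1, Real.sqrt_div hl'.le, ha]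
    field_simp
  have hsq4 : 4 / (L : ℝ) ≤ Real.sqrt (lam k + 4 * s) := by
    apply Real.le_sqrt_of_sq_le
    have h1 : (4 / (L : ℝ)) ^ 2 = 16 / (L : ℝ) ^ 2 := by
      rw [div_pow]; norm_num
    rw [h1]; linarith
  have hUh : Real.sqrt (U / 2) ≤ Real.sqrt U := Real.sqrt_le_sqrt (by linarith)
  have haL : a ≤ Real.sqrt U * (L / 4) := by
    have h1 : 1 / Real.sqrt (lam k + 4 * s) ≤ L / 4 := by
      calc 1 / Real.sqrt (lam k + 4 * s) ≤ 1 / (4 / (L : ℝ)) :=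
            one_div_le_one_div_of_le (by positivity) hsq4
        _ = L / 4 := by field_simp
    exact mul_le_mul hUh h1 (by positivity) (by positivity)
  have heta : 2 * a / V ≤ Real.sqrt U / L := by
    rw [div_le_div_iff₀ hV hL0]
    have h1 : 2 * a * L ≤ 2 * (Real.sqrt U * (L / 4)) * L := by
      have := mul_le_mul_of_nonneg_right haL hL0.le
      linarith
    have h2 : Real.sqrt U * (L : ℝ) ^ 2 ≤ Real.sqrt U * V :=
      mul_le_mul_of_nonneg_left hVL (Real.sqrt_nonneg U)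
    have h3 : 0 ≤ Real.sqrt U * (L : ℝ) ^ 2 := by positivity
    nlinarith
  have hc1 := (cf_le (d := d) (L := L) hG.2.2.1 hG.1.1).1
  have hmode : ∀ g : (Fin d → ZMod L) → ℝ, (∀ x, lap g x = lam k * g x) →
      0 ≤ QR_FOU.BB (KR Ψ) g ∧
      a * cf Ψ ^ 2 * (∑ x, g x ^ 2) ≤ QR_FOU.BB (KR Ψ) g * (1 + 2 * a / V) := by
    intro g hg
    have h1 := unc hU hl' (wz_ge hs z) (wz_trans s z) hG g (wz_sum hs z g hg)
    rw [hainv] at h1
    exact Pool.Agent.N987.QLLOWG.mode (cf Ψ) (∑ x, g x ^ 2) (QR_FOU.BB (KR Ψ) g) V a hV ha0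
      (Finset.sum_nonneg fun x _ => sq_nonneg _) hc1 h1
  obtain ⟨hc0, hcm⟩ := hmode (QR_FOU.cc k) (fun x => Pool.Agent.N157.QR_FOU.lap_cc k x)
  obtain ⟨hs0, hsm⟩ := hmode (QR_FOU.ss k) (fun x => Pool.Agent.N157.QR_FOU.lap_ss k x)
  have hnorm : (∑ x, QR_FOU.cc k x ^ 2) + ∑ x, QR_FOU.ss k x ^ 2 = V := by
    rw [← Finset.sum_add_distrib]
    simp only [fun x => Pool.Agent.N157.QR_FOU.cs_sq k x]
    rw [Finset.sum_const, Finset.card_univ, nsmul_eq_mul, mul_one]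
  refine ⟨?_, add_nonneg hc0 hs0⟩
  unfold nk
  calc cf Ψ ^ 2 * V * a = a * cf Ψ ^ 2 * ((∑ x, QR_FOU.cc k x ^ 2) + ∑ x, QR_FOU.ss k x ^ 2) := by
        rw [hnorm]; ring
    _ = a * cf Ψ ^ 2 * (∑ x, QR_FOU.cc k x ^ 2) + a * cf Ψ ^ 2 * (∑ x, QR_FOU.ss k x ^ 2) := by
        ring
    _ ≤ QR_FOU.BB (KR Ψ) (QR_FOU.cc k) * (1 + 2 * a / V) +
        QR_FOU.BB (KR Ψ) (QR_FOU.ss k) * (1 + 2 * a / V) := add_le_add hcm hsm
    _ = (QR_FOU.BB (KR Ψ) (QR_FOU.cc k) + QR_FOU.BB (KR Ψ) (QR_FOU.ss k)) * (1 + 2 * a / V) := by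
        ring
    _ ≤ (QR_FOU.BB (KR Ψ) (QR_FOU.cc k) + QR_FOU.BB (KR Ψ) (QR_FOU.ss k)) *
        (1 + Real.sqrt U / L) :=
        mul_le_mul_of_nonneg_left (by linarith) (by linarith)

/-- Bogoliubov's profile (without the factor `√U`), with the shift `4 s` of the dispersion. -/
noncomputable def pr (d L : ℕ) [NeZero L] (s : ℝ) (z : Fin d → ZMod L) : ℝ :=
  (∑ k ∈ (Finset.univ : Finset (Fin d → ZMod L)).erase 0,
    oc k z / Real.sqrt (lam k + 4 * s)) / (Fintype.card (Fin d → ZMod L) : ℝ) / Real.sqrt 2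

end

end Pool.Agent.H993.DM
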