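import Pool.Agent.H993.DM.B

/-!
# Project DM: upper and lower bounds for the correlations
-/

namespace Pool.Agent.H993.DM

open Pool.Agent.N657.QR Pool.Agent.N657.QL
open Pool.Agent.H993.TR (oc oc_nonneg oc_le oc_zero planch_oc)
open Pool.Agent.N157 (QR_FOU.cc QR_FOU.ss QR_FOU.BB)
open Pool.Agent.N498.QL_SYM (nnw_nonneg nnw_trans)

section

variable {d L : ℕ} [NeZero L]

theorem card_pos' : (0 : ℝ) < (Fintype.card (Fin d → ZMod L) : ℝ) := by
  exact_mod_cast Fintype.card_pos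

theorem lam_pos' {k : Fin d → ZMod L} (hk : k ≠ 0) : 0 < lam k := by
  have hL0 : (0 : ℝ) < L := by exact_mod_cast Nat.pos_of_ne_zero (NeZero.ne L)
  exact lt_of_lt_of_le (by positivity) (pla.low d L k hk)

theorem two_pos' : (0 : ℝ) < Real.sqrt 2 := Real.sqrt_pos.2 (by norm_num)

theorem one_le_sqrt2 : 1 ≤ Real.sqrt 2 := by
  rw [show (1 : ℝ) = Real.sqrt 1 by simp]
  exact Real.sqrt_le_sqrt (by norm_num)

theorem pr_nonneg {s : ℝ} (z : Fin d → ZMod L) : 0 ≤ pr d L s z := by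
  unfold pr
  refine div_nonneg (div_nonneg (Finset.sum_nonneg fun k _ => ?_) card_pos'.le) two_pos'.le
  exact div_nonneg (oc_nonneg k z) (Real.sqrt_nonneg _)

/-- The profile is at most twice the lattice sum. -/
theorem pr_le {s : ℝ} (hs : 0 ≤ s) (z : Fin d → ZMod L) : pr d L s z ≤ 2 * IL d L := by
  unfold pr IL
  rw [div_le_iff₀ two_pos']
  have h1 : (∑ k ∈ (Finset.univ : Finset (Fin d → ZMod L)).erase 0,
      oc k z / Real.sqrt (lam k + 4 * s)) ≤ 2 *
      ∑ k ∈ (Finset.univ : Finset (Fin d → ZMod L)).erase 0, 1 / Real.sqrt (lam k) := by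
    rw [Finset.mul_sum]
    refine Finset.sum_le_sum fun k hk => ?_
    have hl := lam_pos' (Finset.ne_of_mem_erase hk)
    rw [mul_one_div]
    exact div_le_div₀ (by norm_num) (oc_le k z) (Real.sqrt_pos.2 hl)
      (Real.sqrt_le_sqrt (by linarith))
  have hIL : 0 ≤ (∑ k ∈ (Finset.univ : Finset (Fin d → ZMod L)).erase 0,
      1 / Real.sqrt (lam k)) / (Fintype.card (Fin d → ZMod L) : ℝ) :=
    div_nonneg (Finset.sum_nonneg fun k _ => by positivity) card_pos'.le
  have h2 : (∑ k ∈ (Finset.univ : Finset (Fin d → ZMod L)).erase 0,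
      oc k z / Real.sqrt (lam k + 4 * s)) / (Fintype.card (Fin d → ZMod L) : ℝ) ≤ 2 *
      ((∑ k ∈ (Finset.univ : Finset (Fin d → ZMod L)).erase 0, 1 / Real.sqrt (lam k)) /
        (Fintype.card (Fin d → ZMod L) : ℝ)) := by
    rw [mul_div_assoc']
    exact div_le_div_of_nonneg_right h1 card_pos'.le
  refine h2.trans ?_
  have := one_le_sqrt2
  nlinarith

/-- The dependence on `s`. -/
theorem pr_diff {s : ℝ} (hs : 0 ≤ s) (z : Fin d → ZMod L) :
    pr d L 0 z ≤ pr d L s z + 2 * (IL d L - ILg d L (2 * s)) := by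
  have hV := card_pos' (d := d) (L := L)
  have h1 : ∀ k ∈ (Finset.univ : Finset (Fin d → ZMod L)).erase 0,
      oc k z / Real.sqrt (lam k + 4 * 0) - oc k z / Real.sqrt (lam k + 4 * s) ≤
      2 * (1 / Real.sqrt (lam k) - 1 / Real.sqrt (lam k + 2 * (2 * s))) := by
    intro k hk
    have hl := lam_pos' (Finset.ne_of_mem_erase hk)
    have e1 : lam k + 4 * 0 = lam k := by ring
    have e2 : lam k + 2 * (2 * s) = lam k + 4 * s := by ring
    rw [e1, e2]
    have h2 : 1 / Real.sqrt (lam k + 4 * s) ≤ 1 / Real.sqrt (lam k) :=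
      one_div_le_one_div_of_le (Real.sqrt_pos.2 hl) (Real.sqrt_le_sqrt (by linarith))
    have h3 : oc k z / Real.sqrt (lam k) - oc k z / Real.sqrt (lam k + 4 * s) =
        oc k z * (1 / Real.sqrt (lam k) - 1 / Real.sqrt (lam k + 4 * s)) := by ring
    rw [h3]
    exact mul_le_mul_of_nonneg_right (oc_le k z) (by linarith)
  have h2 := Finset.sum_le_sum h1
  rw [Finset.sum_sub_distrib, ← Finset.mul_sum, Finset.sum_sub_distrib] at h2
  have h3 : pr d L 0 z - pr d L s z =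
      ((∑ k ∈ (Finset.univ : Finset (Fin d → ZMod L)).erase 0,
        oc k z / Real.sqrt (lam k + 4 * 0)) -
      ∑ k ∈ (Finset.univ : Finset (Fin d → ZMod L)).erase 0,
        oc k z / Real.sqrt (lam k + 4 * s)) / (Fintype.card (Fin d → ZMod L) : ℝ) /
          Real.sqrt 2 := by
    unfold pr
    ring
  have h4 : IL d L - ILg d L (2 * s) =
      ((∑ k ∈ (Finset.univ : Finset (Fin d → ZMod L)).erase 0, 1 / Real.sqrt (lam k)) -
      ∑ k ∈ (Finset.univ : Finset (Fin d → ZMod L)).erase 0,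
        1 / Real.sqrt (lam k + 2 * (2 * s))) / (Fintype.card (Fin d → ZMod L) : ℝ) := by
    unfold IL ILg
    ring
  have h5 : 0 ≤ (∑ k ∈ (Finset.univ : Finset (Fin d → ZMod L)).erase 0, 1 / Real.sqrt (lam k)) -
      ∑ k ∈ (Finset.univ : Finset (Fin d → ZMod L)).erase 0,
        1 / Real.sqrt (lam k + 2 * (2 * s)) := by
    rw [sub_nonneg]
    refine Finset.sum_le_sum fun k hk => ?_
    have hl := lam_pos' (Finset.ne_of_mem_erase hk)
    exact one_div_le_one_div_of_le (Real.sqrt_pos.2 hl) (Real.sqrt_le_sqrt (by linarith))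
  have h6 : pr d L 0 z - pr d L s z ≤ 2 * (IL d L - ILg d L (2 * s)) / Real.sqrt 2 := by
    rw [h3, h4, mul_div_assoc', div_div, div_div, mul_comm (Fintype.card (Fin d → ZMod L) : ℝ)]
    exact div_le_div_of_nonneg_right h2 (mul_nonneg two_pos'.le hV.le)
  have h7 : 2 * (IL d L - ILg d L (2 * s)) / Real.sqrt 2 ≤ 2 * (IL d L - ILg d L (2 * s)) := by
    refine div_le_self ?_ one_le_sqrt2
    rw [h4]
    exact mul_nonneg (by norm_num) (div_nonneg h5 hV.le)
  linarith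

/-- The mean correlation at the displacement `z`. -/
noncomputable def mc (Ψ : ((Fin d → ZMod L) → ℤ) → ℝ) (z : Fin d → ZMod L) : ℝ :=
  (∑ x, (1 - cr x (x + z) Ψ)) / (Fintype.card (Fin d → ZMod L) : ℝ)

theorem mc_cosum {Ψ : ((Fin d → ZMod L) → ℤ) → ℝ} (hn : nr Ψ = 1) (z : Fin d → ZMod L) :
    ∑ k ∈ (Finset.univ : Finset (Fin d → ZMod L)).erase 0, nk Ψ k * oc k z =
      (Fintype.card (Fin d → ZMod L) : ℝ) ^ 2 * mc Ψ z := by
  rw [cosum hn]
  unfold mc
  have := card_pos' (d := d) (L := L)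
  field_simp

theorem mc_le {Ψ : ((Fin d → ZMod L) → ℤ) → ℝ} (hn : nr Ψ = 1)
    (hs : Summable fun n => Ψ n ^ 2) (z : Fin d → ZMod L) : mc Ψ z ≤ 2 := by
  unfold mc
  rw [div_le_iff₀ card_pos']
  have h := (cf_le hn hs).2
  calc ∑ x, (1 - cr x (x + z) Ψ) ≤ ∑ _x : Fin d → ZMod L, (2 : ℝ) :=
        Finset.sum_le_sum fun x _ => by linarith [(abs_le.1 (h x (x + z))).1]
    _ = 2 * (Fintype.card (Fin d → ZMod L) : ℝ) := by
        rw [Finset.sum_const, Finset.card_univ, nsmul_eq_mul]; ring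

theorem sqrt_half {U : ℝ} (hU : 0 ≤ U) : Real.sqrt (U / 2) = Real.sqrt U / Real.sqrt 2 :=
  Real.sqrt_div hU 2

/-- Summation of the lower bounds for the modes against the cosines. -/
theorem low_sum {U s : ℝ} (hd : 2 ≤ d) (hU : 0 < U) (hs : 0 ≤ s) (z : Fin d → ZMod L)
    {Ψ : ((Fin d → ZMod L) → ℤ) → ℝ}
    (hG : IsG (U • (1 : Matrix (Fin d → ZMod L) (Fin d → ZMod L) ℝ)) (wz s z) 0 0 Ψ)
    (z' : Fin d → ZMod L) :
    cf Ψ ^ 2 * (Real.sqrt U * pr d L s z') ≤ mc Ψ z' * (1 + Real.sqrt U / L) := by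
  have hV := card_pos' (d := d) (L := L)
  have h1 : ∑ k ∈ (Finset.univ : Finset (Fin d → ZMod L)).erase 0,
      cf Ψ ^ 2 * (Fintype.card (Fin d → ZMod L) : ℝ) *
        (Real.sqrt (U / 2) * (1 / Real.sqrt (lam k + 4 * s))) * oc k z' ≤
      ∑ k ∈ (Finset.univ : Finset (Fin d → ZMod L)).erase 0,
        nk Ψ k * (1 + Real.sqrt U / L) * oc k z' :=
    Finset.sum_le_sum fun k hk => mul_le_mul_of_nonneg_right
      (mode hd hU hs z hG (Finset.ne_of_mem_erase hk)).1 (oc_nonneg k z')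
  have h2 : ∑ k ∈ (Finset.univ : Finset (Fin d → ZMod L)).erase 0,
      nk Ψ k * (1 + Real.sqrt U / L) * oc k z' =
      (Fintype.card (Fin d → ZMod L) : ℝ) ^ 2 * (mc Ψ z' * (1 + Real.sqrt U / L)) := by
    rw [← mul_assoc, ← mc_cosum hG.2.2.1, Finset.sum_mul]
    exact Finset.sum_congr rfl fun k _ => by ring
  have h3 : ∑ k ∈ (Finset.univ : Finset (Fin d → ZMod L)).erase 0,
      cf Ψ ^ 2 * (Fintype.card (Fin d → ZMod L) : ℝ) *
        (Real.sqrt (U / 2) * (1 / Real.sqrt (lam k + 4 * s))) * oc k z' =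
      (Fintype.card (Fin d → ZMod L) : ℝ) ^ 2 * (cf Ψ ^ 2 * (Real.sqrt U * pr d L s z')) := by
    unfold pr
    have e1 : ∀ k ∈ (Finset.univ : Finset (Fin d → ZMod L)).erase 0,
        cf Ψ ^ 2 * (Fintype.card (Fin d → ZMod L) : ℝ) *
        (Real.sqrt (U / 2) * (1 / Real.sqrt (lam k + 4 * s))) * oc k z' =
        cf Ψ ^ 2 * (Fintype.card (Fin d → ZMod L) : ℝ) * (Real.sqrt U / Real.sqrt 2) *
          (oc k z' / Real.sqrt (lam k + 4 * s)) := by
      intro k _
      rw [sqrt_half hU.le]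
      ring
    rw [Finset.sum_congr rfl e1, ← Finset.mul_sum]
    field_simp
  rw [h2, h3] at h1
  exact le_of_mul_le_mul_left h1 (by positivity)

theorem IL_nonneg : 0 ≤ IL d L :=
  div_nonneg (Finset.sum_nonneg fun k _ => by positivity) card_pos'.le

/-- The upper bound for one displacement in terms of the total depletion. -/
theorem up_sum {U : ℝ} (hd : 2 ≤ d) (hU : 0 < U)
    {Ψ : ((Fin d → ZMod L) → ℤ) → ℝ}
    (hG : IsG (U • (1 : Matrix (Fin d → ZMod L) (Fin d → ZMod L) ℝ)) (nnw 1) 0 0 Ψ)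
    (z : Fin d → ZMod L) :
    mc Ψ z ≤ Real.sqrt U * pr d L 0 z + 2 * ((1 - cf Ψ) -
      cf Ψ ^ 2 / (1 + Real.sqrt U / L) * (Real.sqrt U * (IL d L / Real.sqrt 2))) := by
  have hV := card_pos' (d := d) (L := L)
  have hL0 : (0 : ℝ) < L := by exact_mod_cast Nat.pos_of_ne_zero (NeZero.ne L)
  have hsU := Real.sqrt_nonneg U
  have hw : (wz 0 0 : (Fin d → ZMod L) → (Fin d → ZMod L) → ℝ) = nnw 1 := by
    funext x y
    unfold wz
    simp
  have hG' : IsG (U • (1 : Matrix (Fin d → ZMod L) (Fin d → ZMod L) ℝ)) (wz 0 0) 0 0 Ψ := by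
    rw [hw]; exact hG
  set q : ℝ := 1 + Real.sqrt U / L with hq
  have hq1 : 1 ≤ q := by
    have : 0 ≤ Real.sqrt U / L := by positivity
    linarith
  have hq0 : 0 < q := by linarith
  obtain ⟨hc1, hcr⟩ := cf_le (d := d) (L := L) hG.2.2.1 hG.1.1
  have hcm1 : -1 ≤ cf Ψ := by
    unfold cf
    rw [le_div_iff₀ (by positivity)]
    calc -1 * (Fintype.card (Fin d → ZMod L) : ℝ) ^ 2 =
        ∑ x : Fin d → ZMod L, ∑ y : Fin d → ZMod L, (-1 : ℝ) := by
          simp only [Finset.sum_const, Finset.card_univ, nsmul_eq_mul, mul_one]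
          ring
      _ ≤ ∑ x, ∑ y, cr x y Ψ :=
          Finset.sum_le_sum fun x _ => Finset.sum_le_sum fun y _ => (abs_le.1 (hcr x y)).1
  have hcs : cf Ψ ^ 2 / q ≤ 1 := by
    rw [div_le_one hq0]
    have : cf Ψ ^ 2 ≤ 1 := by nlinarith
    linarith
  have hcs0 : 0 ≤ cf Ψ ^ 2 / q := by positivity
  -- b k: Bogoliubov's value
  set b : (Fin d → ZMod L) → ℝ := fun k =>
    (Fintype.card (Fin d → ZMod L) : ℝ) * (Real.sqrt (U / 2) * (1 / Real.sqrt (lam k + 4 * 0)))
    with hb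
  have hb0 : ∀ k, 0 ≤ b k := fun k => by
    rw [hb]; positivity
  have hmode : ∀ k ∈ (Finset.univ : Finset (Fin d → ZMod L)).erase 0,
      cf Ψ ^ 2 / q * b k ≤ nk Ψ k := by
    intro k hk
    have h := (mode hd hU le_rfl 0 hG' (Finset.ne_of_mem_erase hk)).1
    rw [div_mul_eq_mul_div, div_le_iff₀ hq0]
    refine le_trans (le_of_eq ?_) h
    rw [hb]
    ring
  have h1 : ∑ k ∈ (Finset.univ : Finset (Fin d → ZMod L)).erase 0, nk Ψ k * oc k z ≤
      ∑ k ∈ (Finset.univ : Finset (Fin d → ZMod L)).erase 0,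
        (b k * oc k z + 2 * (nk Ψ k - cf Ψ ^ 2 / q * b k)) := by
    refine Finset.sum_le_sum fun k hk => ?_
    have h2 := hmode k hk
    have h3 : (nk Ψ k - cf Ψ ^ 2 / q * b k) * oc k z ≤ (nk Ψ k - cf Ψ ^ 2 / q * b k) * 2 :=
      mul_le_mul_of_nonneg_left (oc_le k z) (by linarith)
    have h4 : cf Ψ ^ 2 / q * b k * oc k z ≤ b k * oc k z :=
      mul_le_mul_of_nonneg_right (mul_le_of_le_one_left (hb0 k) hcs) (oc_nonneg k z)
    nlinarith
  rw [Finset.sum_add_distrib, ← Finset.mul_sum, Finset.sum_sub_distrib, ← Finset.mul_sum,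
    mc_cosum hG.2.2.1, nsum hG.2.2.1] at h1
  have e1 : ∑ k ∈ (Finset.univ : Finset (Fin d → ZMod L)).erase 0, b k * oc k z =
      (Fintype.card (Fin d → ZMod L) : ℝ) ^ 2 * (Real.sqrt U * pr d L 0 z) := by
    unfold pr
    have e2 : ∀ k ∈ (Finset.univ : Finset (Fin d → ZMod L)).erase 0, b k * oc k z =
        (Fintype.card (Fin d → ZMod L) : ℝ) * (Real.sqrt U / Real.sqrt 2) *
          (oc k z / Real.sqrt (lam k + 4 * 0)) := by
      intro k _
      rw [hb]
      simp only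
      rw [sqrt_half hU.le]
      ring
    rw [Finset.sum_congr rfl e2, ← Finset.mul_sum]
    field_simp
  have e3 : ∑ k ∈ (Finset.univ : Finset (Fin d → ZMod L)).erase 0, b k =
      (Fintype.card (Fin d → ZMod L) : ℝ) ^ 2 * (Real.sqrt U * (IL d L / Real.sqrt 2)) := by
    unfold IL
    have e2 : ∀ k ∈ (Finset.univ : Finset (Fin d → ZMod L)).erase 0, b k =
        (Fintype.card (Fin d → ZMod L) : ℝ) * (Real.sqrt U / Real.sqrt 2) *
          (1 / Real.sqrt (lam k)) := by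
      intro k _
      rw [hb]
      simp only
      rw [sqrt_half hU.le, mul_zero, add_zero]
      ring
    rw [Finset.sum_congr rfl e2, ← Finset.mul_sum]
    field_simp
  rw [e1, e3] at h1
  have h5 : (Fintype.card (Fin d → ZMod L) : ℝ) ^ 2 * mc Ψ z ≤
      (Fintype.card (Fin d → ZMod L) : ℝ) ^ 2 * (Real.sqrt U * pr d L 0 z + 2 * ((1 - cf Ψ) -
      cf Ψ ^ 2 / q * (Real.sqrt U * (IL d L / Real.sqrt 2)))) := by
    refine h1.trans (le_of_eq ?_)
    ring
  exact le_of_mul_le_mul_left h5 (by positivity)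

end

end Pool.Agent.H993.DM
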