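import Pool.Agent.H993.DM.C
import Pool.Agent.H993.LY.Off

/-!
# Project DM: the density matrix of the ground states
-/

namespace Pool.Agent.H993.DM

open Pool.Agent.N657.QR Pool.Agent.N657.QL
open Pool.Agent.H993.TR (oc oc_nonneg oc_le oc_zero planch_oc)
open Pool.Agent.N498.QL_SYM (nnw_nonneg nnw_trans)

section

variable {d L : ℕ} [NeZero L]

theorem FF_wz (K : Matrix (Fin d → ZMod L) (Fin d → ZMod L) ℝ) (s : ℝ) (z : Fin d → ZMod L)
    (ν : (Fin d → ZMod L) → ℝ) (ψ : ((Fin d → ZMod L) → ℤ) → ℝ) :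
    FF K (wz s z) ν ψ = FF K (nnw 1) ν ψ - s * ∑ x, cr x (x + z) ψ := by
  unfold FF
  have h1 : ∀ x, ∑ y, wz s z x y * cr x y ψ = ∑ y, nnw 1 x y * cr x y ψ + s * cr x (x + z) ψ := by
    intro x
    unfold wz
    simp only [add_mul, Finset.sum_add_distrib]
    congr 1
    rw [Finset.sum_eq_single (x + z)]
    · rw [if_pos rfl]
    · intro y _ hy
      rw [if_neg hy, zero_mul]
    · intro h
      exact absurd (Finset.mem_univ _) h
  simp only [h1, Finset.sum_add_distrib, ← Finset.mul_sum]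
  ring

/-- The condensate fraction of the neutral ground state with more hopping. -/
theorem cf_low {C U : ℝ} {w : (Fin d → ZMod L) → (Fin d → ZMod L) → ℝ}
    (hNeu : ∀ (Ψ : ((Fin d → ZMod L) → ℤ) → ℝ),
      IsG (U • (1 : Matrix (Fin d → ZMod L) (Fin d → ZMod L) ℝ)) (nnw 1) 0 0 Ψ →
      (1 - C * Real.sqrt U) * (Fintype.card (Fin d → ZMod L) : ℝ) ^ 2 ≤ ∑ x, ∑ y, cr x y Ψ)
    (hU : 0 < U) (hw : ∀ x y, nnw 1 x y ≤ w x y) {Ψ : ((Fin d → ZMod L) → ℤ) → ℝ}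
    (hG : IsG (U • (1 : Matrix (Fin d → ZMod L) (Fin d → ZMod L) ℝ)) w 0 0 Ψ) :
    1 - C * Real.sqrt U ≤ cf Ψ := by
  have hPD := pd_one (d := d) (L := L) hU
  obtain ⟨Ψ0, hΨ0⟩ := ex (U • (1 : Matrix (Fin d → ZMod L) (Fin d → ZMod L) ℝ)) (nnw 1) 0 0 hPD
    (fun x y => nnw_nonneg x y)
  have hcomp : ∀ x y, cr x y Ψ0 ≤ cr x y Ψ :=
    cmp (U • (1 : Matrix (Fin d → ZMod L) (Fin d → ZMod L) ℝ))
      (U • (1 : Matrix (Fin d → ZMod L) (Fin d → ZMod L) ℝ)) w (nnw 1) 0 0 Ψ Ψ0 hPD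
      (by rw [sub_self]; exact Matrix.PosSemidef.zero) (fun x y => nnw_nonneg x y) hw
      (conn_of hw) hG hΨ0
  have hV := card_pos' (d := d) (L := L)
  unfold cf
  rw [le_div_iff₀ (by positivity)]
  exact (hNeu Ψ0 hΨ0).trans
    (Finset.sum_le_sum fun x _ => Finset.sum_le_sum fun y _ => hcomp x y)

theorem IL_le {C1 : ℝ} (h : ∑ k ∈ (Finset.univ : Finset (Fin d → ZMod L)).erase 0,
    1 / Real.sqrt (lam k) ≤ C1 * (Fintype.card (Fin d → ZMod L) : ℝ)) : IL d L ≤ C1 := by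
  unfold IL
  rw [div_le_iff₀ card_pos']
  exact h

/-- Real inequality for the lower bound. -/
theorem ineq_low {c s S m C C1 ε l : ℝ} (hs : 0 ≤ s) (hc : 1 - C * s ≤ c)
    (hS0 : 0 ≤ S) (hS : S ≤ s * (2 * C1)) (hC : 0 < C) (hC1 : 0 < C1) (hm : m ≤ 2)
    (hl : 0 < l) (hl2 : 16 / ε ≤ l) (hε : 0 < ε) (hse : 16 * C * C1 * s ≤ ε)
    (h : c ^ 2 * S ≤ m * (1 + s / l)) : S - 3 / 8 * ε * s ≤ m := by
  have h1 : (1 - 2 * (C * s)) * S ≤ c ^ 2 * S :=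
    mul_le_mul_of_nonneg_right (by nlinarith [sq_nonneg (1 - c)]) hS0
  have h2 : (2 * (C * s)) * S ≤ (2 * (C * s)) * (s * (2 * C1)) :=
    mul_le_mul_of_nonneg_left hS (by positivity)
  have h3 : (2 * (C * s)) * (s * (2 * C1)) = s * (16 * C * C1 * s) / 4 := by ring
  have h4 : s * (16 * C * C1 * s) ≤ s * ε := mul_le_mul_of_nonneg_left hse hs
  have h5 : m * (s / l) ≤ 2 * (s / l) := mul_le_mul_of_nonneg_right hm (by positivity)
  have h6 : 2 * (s / l) ≤ s * ε / 8 := by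
    have h7 : 16 ≤ ε * l := by
      rw [div_le_iff₀ hε] at hl2
      linarith
    rw [mul_div_assoc', div_le_div_iff₀ hl (by norm_num)]
    nlinarith [mul_le_mul_of_nonneg_left h7 hs]
  nlinarith

/-- The lower bound of the depletion at the displacement `z`, for all backgrounds and numbers of
particles. -/
theorem low_dens (d : ℕ) (hd : 2 ≤ d) (ε : ℝ) (hε : 0 < ε) : ∃ U₀ : ℝ, 0 < U₀ ∧
    ∀ U : ℝ, 0 < U → U ≤ U₀ → ∃ L₀ : ℕ, ∀ (L : ℕ) [NeZero L], L₀ ≤ L → Even L →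
    ∀ (ν : (Fin d → ZMod L) → ℝ) (N : ℤ) (Φ : ((Fin d → ZMod L) → ℤ) → ℝ),
      IsG (U • (1 : Matrix (Fin d → ZMod L) (Fin d → ZMod L) ℝ)) (nnw 1) ν N Φ →
      ∀ z, (pr d L 0 z - ε) * Real.sqrt U ≤ mc Φ z := by
  obtain ⟨γ, hγ, hIL⟩ := gam d hd (ε / 8) (by positivity)
  obtain ⟨C, hC, hNeu⟩ := neu d hd
  obtain ⟨C1, hC1, hLat⟩ := lat d hd
  set s0 : ℝ := min (ε / (16 * C * C1)) (ε * γ / 8) with hs0
  have hs0pos : 0 < s0 := lt_min (by positivity) (by positivity)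
  refine ⟨s0 ^ 2, by positivity, ?_⟩
  intro U hU hUle
  refine ⟨Nat.ceil (16 / ε), ?_⟩
  intro L _ hLL hev ν N Φ hΦ z
  have hL0 : (0 : ℝ) < L := by exact_mod_cast Nat.pos_of_ne_zero (NeZero.ne L)
  have hsU : 0 < Real.sqrt U := Real.sqrt_pos.2 hU
  have hUU2 : U = Real.sqrt U * Real.sqrt U := (Real.mul_self_sqrt hU.le).symm
  have hsle : Real.sqrt U ≤ s0 := by
    rw [show s0 = Real.sqrt (s0 ^ 2) from (Real.sqrt_sq hs0pos.le).symm]
    exact Real.sqrt_le_sqrt hUle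
  have hs1 : 16 * C * C1 * Real.sqrt U ≤ ε := by
    have := hsle.trans (min_le_left _ _)
    rw [le_div_iff₀ (by positivity)] at this
    linarith
  have hs2 : Real.sqrt U ≤ ε * γ / 8 := hsle.trans (min_le_right _ _)
  have hV := card_pos' (d := d) (L := L)
  have hPD := pd_one (d := d) (L := L) hU
  have hγ2 : 0 < γ / 2 := by positivity
  obtain ⟨Ψ, hΨ⟩ := ex (U • (1 : Matrix (Fin d → ZMod L) (Fin d → ZMod L) ℝ)) (wz (γ / 2) z) 0 0
    hPD (wz_nonneg hγ2.le z)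
  have hcf := cf_low (C := C) (fun Ψ hΨ => by
    have := hNeu L U 1 Ψ hev hU one_pos hΨ
    rwa [div_one] at this) hU (wz_ge hγ2.le z) hΨ
  have hlow := low_sum hd hU hγ2.le z hΨ z
  have hLL' : 16 / ε ≤ (L : ℝ) := (Nat.le_ceil _).trans (by exact_mod_cast hLL)
  have hILle := IL_le (hLat L)
  have hprle : Real.sqrt U * pr d L (γ / 2) z ≤ Real.sqrt U * (2 * C1) :=
    mul_le_mul_of_nonneg_left ((pr_le hγ2.le z).trans (by linarith)) hsU.le
  have h0 := ineq_low hsU.le hcf (mul_nonneg hsU.le (pr_nonneg z)) hprle hC hC1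
    (mc_le hΨ.2.2.1 hΨ.1.1 z) hL0 hLL' hε hs1 hlow
  -- comparison of the energies
  obtain ⟨f1, f2, f3, f4⟩ := hΦ
  obtain ⟨p1, p2, p3, p4⟩ := hΨ
  have h2 := lb (U • (1 : Matrix (Fin d → ZMod L) (Fin d → ZMod L) ℝ)) (wz (γ / 2) z) ν N Φ
    hPD.posSemidef (wz_nonneg hγ2.le z) f1 f2
  have h3 := lb (U • (1 : Matrix (Fin d → ZMod L) (Fin d → ZMod L) ℝ)) (nnw 1) 0 0 Ψ
    hPD.posSemidef (fun x y => nnw_nonneg x y) p1 p2
  have h4 := dif U (nnw 1) (wz (γ / 2) z : (Fin d → ZMod L) → (Fin d → ZMod L) → ℝ) ν N hU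
    (fun x y => nnw_nonneg x y) (wz_nonneg hγ2.le z)
  rw [f3, mul_one, FF_wz, f4] at h2
  have e1 := FF_wz (U • (1 : Matrix (Fin d → ZMod L) (Fin d → ZMod L) ℝ)) (γ / 2) z 0 Ψ
  rw [p4] at e1
  rw [p3, mul_one] at h3
  have h5 : γ / 2 * (∑ x, cr x (x + z) Φ) ≤ γ / 2 * (∑ x, cr x (x + z) Ψ) +
      U * (Fintype.card (Fin d → ZMod L) : ℝ) := by linarith
  have emc : ∀ ψ : ((Fin d → ZMod L) → ℤ) → ℝ, mc ψ z =
      1 - (∑ x, cr x (x + z) ψ) / (Fintype.card (Fin d → ZMod L) : ℝ) := by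
    intro ψ
    unfold mc
    rw [Finset.sum_sub_distrib, Finset.sum_const, Finset.card_univ, nsmul_eq_mul, mul_one, sub_div,
      div_self hV.ne']
  have h6 : (∑ x, cr x (x + z) Φ) / (Fintype.card (Fin d → ZMod L) : ℝ) ≤
      (∑ x, cr x (x + z) Ψ) / (Fintype.card (Fin d → ZMod L) : ℝ) + 2 * U / γ := by
    have e2 : ∀ S : ℝ, S / (Fintype.card (Fin d → ZMod L) : ℝ) =
        2 / (γ * (Fintype.card (Fin d → ZMod L) : ℝ)) * (γ / 2 * S) := by
      intro S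
      field_simp
    have e3 : (∑ x, cr x (x + z) Ψ) / (Fintype.card (Fin d → ZMod L) : ℝ) + 2 * U / γ =
        2 / (γ * (Fintype.card (Fin d → ZMod L) : ℝ)) * (γ / 2 * (∑ x, cr x (x + z) Ψ) +
          U * (Fintype.card (Fin d → ZMod L) : ℝ)) := by
      field_simp
    rw [e3, e2]
    exact mul_le_mul_of_nonneg_left h5 (by positivity)
  have h7 : 2 * U / γ ≤ ε / 4 * Real.sqrt U := by
    rw [div_le_iff₀ hγ]
    calc 2 * U = 2 * (Real.sqrt U * Real.sqrt U) := by rw [← hUU2]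
      _ ≤ 2 * (ε * γ / 8 * Real.sqrt U) := by
          have := mul_le_mul_of_nonneg_right hs2 hsU.le
          linarith
      _ = ε / 4 * Real.sqrt U * γ := by ring
  have h8 : mc Ψ z - ε / 4 * Real.sqrt U ≤ mc Φ z := by
    rw [emc, emc]
    linarith
  have h9 := pr_diff hγ2.le z
  have h10 := hIL L
  have e4 : 2 * (γ / 2) = γ := by ring
  rw [e4] at h9
  have h11 : pr d L 0 z ≤ pr d L (γ / 2) z + ε / 4 := by linarith
  have h12 := mul_le_mul_of_nonneg_left h11 hsU.le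
  nlinarith

/-- Real inequality for the upper bound. -/
theorem ineq_up {c s I m p C C1 ε l : ℝ} (hs : 0 ≤ s) (hc : 1 - C * s ≤ c) (hc1 : c ≤ 1)
    (hc0 : 0 ≤ c)
    (hI0 : 0 ≤ I) (hI : I ≤ C1) (hC : 0 < C) (hC1 : 0 < C1) (hl : 1 ≤ l) (hε : 0 < ε)
    (hse : 8 * (2 * C + 1) * C1 * s ≤ ε) (hup : 1 - c ≤ (I + ε / 8) * s)
    (h : m ≤ s * p + 2 * ((1 - c) - c ^ 2 / (1 + s / l) * (s * I))) : m ≤ (p + ε) * s := by
  set t : ℝ := s / l with ht
  have ht0 : 0 ≤ t := by positivity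
  have hts : t ≤ s := div_le_self hs hl
  have h1 : c ^ 2 - t ≤ c ^ 2 / (1 + t) := by
    rw [le_div_iff₀ (by linarith)]
    have h2 : c ^ 2 ≤ 1 := by nlinarith
    nlinarith [mul_nonneg ht0 ht0, mul_nonneg ht0 (sub_nonneg.2 h2)]
  have h2 : 1 - 2 * (C * s) - s ≤ c ^ 2 / (1 + t) := by
    nlinarith [sq_nonneg (1 - c)]
  have h3 : (1 - 2 * (C * s) - s) * (s * I) ≤ c ^ 2 / (1 + t) * (s * I) :=
    mul_le_mul_of_nonneg_right h2 (by positivity)
  have h4 : (2 * C + 1) * s * (s * I) ≤ (2 * C + 1) * s * (s * C1) :=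
    mul_le_mul_of_nonneg_left (mul_le_mul_of_nonneg_left hI hs) (by positivity)
  have h5 : (2 * C + 1) * s * (s * C1) * 8 ≤ s * ε := by
    have := mul_le_mul_of_nonneg_left hse hs
    nlinarith
  nlinarith

/-- The upper bound for the neutral ground state. -/
theorem up_neu (d : ℕ) (hd : 2 ≤ d) (ε : ℝ) (hε : 0 < ε) : ∃ U₀ : ℝ, 0 < U₀ ∧
    ∀ U : ℝ, 0 < U → U ≤ U₀ → ∃ L₀ : ℕ, ∀ (L : ℕ) [NeZero L], L₀ ≤ L → Even L →
    ∀ (Ψ : ((Fin d → ZMod L) → ℤ) → ℝ),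
      IsG (U • (1 : Matrix (Fin d → ZMod L) (Fin d → ZMod L) ℝ)) (nnw 1) 0 0 Ψ →
      ∀ z, mc Ψ z ≤ (pr d L 0 z + ε) * Real.sqrt U := by
  obtain ⟨U₁, hU₁, h1⟩ := up d hd (ε / 8) (by positivity)
  obtain ⟨C, hC, hNeu⟩ := neu d hd
  obtain ⟨C1, hC1, hLat⟩ := lat d hd
  set s0 : ℝ := min (ε / (8 * (2 * C + 1) * C1)) (1 / C) with hs0
  have hs0pos : 0 < s0 := lt_min (by positivity) (by positivity)
  refine ⟨min U₁ (s0 ^ 2), lt_min hU₁ (by positivity), ?_⟩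
  intro U hU hUle
  obtain ⟨L₁, hL₁⟩ := h1 U hU (hUle.trans (min_le_left _ _))
  refine ⟨L₁, ?_⟩
  intro L _ hLL hev Ψ hΨ z
  have hL1 : (1 : ℝ) ≤ L := by
    exact_mod_cast Nat.one_le_iff_ne_zero.2 (NeZero.ne L)
  have hsU : 0 < Real.sqrt U := Real.sqrt_pos.2 hU
  have hsle : Real.sqrt U ≤ s0 := by
    rw [show s0 = Real.sqrt (s0 ^ 2) from (Real.sqrt_sq hs0pos.le).symm]
    exact Real.sqrt_le_sqrt (hUle.trans (min_le_right _ _))
  have hs1 : 8 * (2 * C + 1) * C1 * Real.sqrt U ≤ ε := by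
    have := hsle.trans (min_le_left _ _)
    rw [le_div_iff₀ (by positivity)] at this
    linarith
  have hs2 : C * Real.sqrt U ≤ 1 := by
    have := hsle.trans (min_le_right _ _)
    rw [le_div_iff₀ hC] at this
    linarith
  have hcf := cf_low (C := C) (fun Ψ hΨ => by
    have := hNeu L U 1 Ψ hev hU one_pos hΨ
    rwa [div_one] at this) hU (fun x y => le_rfl) hΨ
  obtain ⟨μ, hμ, hcr⟩ := env d L U Ψ hev hU hΨ
  have ha := a1_eq hμ Ψ hcr
  have hup := hL₁ L hLL μ hμ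
  rw [ha] at hup
  have hc1 := (cf_le (d := d) (L := L) hΨ.2.2.1 hΨ.1.1).1
  have hILle := IL_le (hLat L)
  have hI0 : 0 ≤ IL d L / Real.sqrt 2 := div_nonneg IL_nonneg two_pos'.le
  have hI : IL d L / Real.sqrt 2 ≤ C1 := (div_le_self IL_nonneg one_le_sqrt2).trans hILle
  exact ineq_up hsU.le hcf hc1 (by linarith) hI0 hI hC hC1 hL1 hε hs1 hup (up_sum hd hU hΨ z)

/-- The correlations of translation invariant ground states. -/
theorem mc_pt {d L : ℕ} [NeZero L] {U : ℝ} (hU : 0 < U) {N : ℤ}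
    {Ψ : ((Fin d → ZMod L) → ℤ) → ℝ}
    (hG : IsG (U • (1 : Matrix (Fin d → ZMod L) (Fin d → ZMod L) ℝ)) (nnw 1) 0 N Ψ)
    (x y : Fin d → ZMod L) : mc Ψ (y - x) = 1 - cr x y Ψ := by
  have hT : ∀ (a : Fin d → ZMod L) n n',
      Ψ (fun x => n (x + a)) * Ψ (fun x => n' (x + a)) = Ψ n * Ψ n' :=
    fun a n n' => symT hU (fun x y => le_rfl) (fun x y a => nnw_trans x y a) hG a n n'
  unfold mc
  have h1 : ∀ u : Fin d → ZMod L, 1 - cr u (u + (y - x)) Ψ = 1 - cr x y Ψ := by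
    intro u
    congr 1
    rw [Pool.Agent.N252.QLU.cr_trans Ψ hT u (u + (y - x)) (u - x)]
    congr 1 <;> abel
  simp only [h1]
  rw [Finset.sum_const, Finset.card_univ, nsmul_eq_mul]
  have := card_pos' (d := d) (L := L)
  field_simp

theorem oc_at_zero {d L : ℕ} [NeZero L] (k : Fin d → ZMod L) : oc k 0 = 0 := by
  unfold oc
  have h : Pool.Agent.N157.QR_FOU.dot k (0 : Fin d → ZMod L) = 0 := by
    simp [Pool.Agent.N157.QR_FOU.dot]
  rw [h, Pool.Agent.N157.QR_FOU.ps_zero]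
  simp

theorem pr_zero {d L : ℕ} [NeZero L] : pr d L 0 (0 : Fin d → ZMod L) = 0 := by
  unfold pr
  simp [oc_at_zero]

/-- The lower bound for the profile. -/
theorem pr_low {d L : ℕ} [NeZero L] (hd : 2 ≤ d) {z : Fin d → ZMod L} (hz : z ≠ 0) :
    1 / Real.sqrt (8 * d) ≤ pr d L 0 z := by
  have hd0 : (0:ℝ) < d := by
    have : 0 < d := by omega
    exact_mod_cast this
  have hV := card_pos' (d := d) (L := L)
  have e1 : Real.sqrt (8 * d) = Real.sqrt (4 * d) * Real.sqrt 2 := by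
    rw [← Real.sqrt_mul (by positivity)]
    congr 1
    ring
  have h4 : 0 < Real.sqrt (4 * d) := Real.sqrt_pos.2 (by positivity)
  unfold pr
  rw [e1, ← div_div]
  refine div_le_div_of_nonneg_right ?_ two_pos'.le
  rw [le_div_iff₀ hV, ← Pool.Agent.H993.LY.oc_sum z hz, Finset.mul_sum]
  refine Finset.sum_le_sum fun k hk => ?_
  have hl := lam_pos' (Finset.ne_of_mem_erase hk)
  rw [one_div_mul_eq_div, mul_zero, add_zero]
  exact div_le_div_of_nonneg_left (oc_nonneg k z) (Real.sqrt_pos.2 hl)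
    (Real.sqrt_le_sqrt (Pool.Agent.H993.LY.lam_le k))

end

end Pool.Agent.H993.DM
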